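import Pool.Agent.U540.PT.Ex
import Pool.Agent.U540.PT.HARD
import Pool.Agent.U540.PU.Rat
import Pool.Agent.U540.PU.OGAD
import Pool.Agent.U540.PU.OSD
import Pool.Agent.U540.PU.OKA
import Pool.Agent.U540.PU.OKB
import Pool.Agent.U540.PU.OCSP
import Pool.Agent.U540.PU.RANK

/-!
# Relations which contain all two-valued clique tuples
-/

set_option autoImplicit false

namespace Pool.Agent.U540.PV

open Pool.Agent.W994.AR Pool.Agent.U540.BP Pool.Agent.U540.PT

/-- the entries are pairwise equal or related by `E` -/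
def Clique {B : Type} (E : B → B → Prop) {k : ℕ} (v : Fin k → B) : Prop :=
  ∀ i j, v i ≠ v j → E (v i) (v j)

/-- the entries are pairwise equal or comparable by `E` -/
def Chain {B : Type} (E : B → B → Prop) {k : ℕ} (v : Fin k → B) : Prop :=
  ∀ i j, v i ≠ v j → E (v i) (v j) ∨ E (v j) (v i)

theorem clique_hard {B : Type} {G : Subgroup (Equiv.Perm B)} {E : B → B → Prop}
    (h : CliqueType G E) {ι : Type} {ar : ι → ℕ} (𝔸 : Str ι ar B) (h𝔸 : ∀ l, Invar G (𝔸 l))
    (hE1 : PP 𝔸 {v : Fin 2 → B | E (v 0) (v 1)})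
    (hE2 : PP 𝔸 {v : Fin 2 → B | v 0 = v 1 ∨ E (v 0) (v 1)})
    (htwo : ∀ l (v : Fin (ar l) → B), Clique E v → (Set.range v).ncard = 2 → v ∈ 𝔸 l)
    (l : ι) (v0 : Fin (ar l) → B) (hnc0 : NC v0) (hv0 : Clique E v0) (hv0l : v0 ∉ 𝔸 l) :
    PPConstructsK3 𝔸 := by
  classical
  obtain ⟨J, hJ⟩ := h.inf
  -- a missing tuple with the smallest number of values
  have hex : ∃ m : ℕ, ∃ v : Fin (ar l) → B, NC v ∧ Clique E v ∧ v ∉ 𝔸 l ∧ (Set.range v).ncard = m :=
    ⟨_, v0, hnc0, hv0, hv0l, rfl⟩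
  obtain ⟨v, hnc, hv, hvl, hm⟩ := Nat.find_spec hex
  have hmin : ∀ w : Fin (ar l) → B, NC w → Clique E w → (Set.range w).ncard < (Set.range v).ncard →
      w ∈ 𝔸 l := by
    intro w hw1 hw2 hw3
    by_contra hw4
    rw [hm] at hw3
    exact Nat.find_min hex hw3 ⟨w, hw1, hw2, hw4, rfl⟩
  -- there are at least three values
  have h3 : 2 < (Set.range v).ncard := by
    obtain ⟨i, j, hij⟩ := hnc
    have h1 : 1 < (Set.range v).ncard :=
      (Set.one_lt_ncard (Set.finite_range v)).2 ⟨v i, ⟨i, rfl⟩, v j, ⟨j, rfl⟩, hij⟩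
    have h2 : (Set.range v).ncard ≠ 2 := fun h2 => hvl (htwo l v hv h2)
    omega
  obtain ⟨y0, hy0, y1, hy1, y2, hy2, h01, h02, h12⟩ :=
    (Set.two_lt_ncard (Set.finite_range v)).1 h3
  let X : Type := Set.range v
  have : Finite X := Set.finite_range v
  let c : Fin (ar l) → X := fun i => ⟨v i, ⟨i, rfl⟩⟩
  have hc : ∀ x : X, ∃ i, c i = x := by
    rintro ⟨x, ⟨i, rfl⟩⟩
    exact ⟨i, rfl⟩
  have hX : ∀ a b : X, a ≠ b → E (a : B) (b : B) := by
    rintro ⟨a, ⟨i, rfl⟩⟩ ⟨b, ⟨j, rfl⟩⟩ hab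
    exact hv i j fun h => hab (Subtype.ext h)
  have hmerge : ∀ (p q r : X), p ≠ q → r ≠ p → r ≠ q → ∀ e : X → B, e p = e q →
      (∀ a b, a ≠ b → ¬ (a = p ∧ b = q) → ¬ (a = q ∧ b = p) → E (e a) (e b)) → e ∘ c ∈ 𝔸 l := by
    intro p q r hpq hrp hrq e he hE
    apply hmin
    · obtain ⟨i, hi⟩ := hc p
      obtain ⟨j, hj⟩ := hc r
      refine ⟨i, j, ?_⟩
      show e (c i) ≠ e (c j)
      rw [hi, hj]
      intro heq
      have h1 := hE p r hrp.symm (fun h => hrq h.2) (fun h => hrp h.2)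
      rw [heq] at h1
      exact h.irrefl _ h1
    · intro i j hij
      apply hE
      · intro h1
        exact hij (congrArg e h1)
      · rintro ⟨h1, h2⟩
        apply hij
        show e (c i) = e (c j)
        rw [h1, h2, he]
      · rintro ⟨h1, h2⟩
        apply hij
        show e (c i) = e (c j)
        rw [h1, h2, he]
    · have h1 : Set.range (e ∘ c) ⊆ e '' (Set.univ \ {q}) := by
        rintro _ ⟨i, rfl⟩
        by_cases hi : c i = q
        · exact ⟨p, ⟨trivial, hpq⟩, by rw [he, ← hi]; rfl⟩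
        · exact ⟨c i, ⟨trivial, hi⟩, rfl⟩
      calc (Set.range (e ∘ c)).ncard ≤ (e '' (Set.univ \ {q})).ncard :=
            Set.ncard_le_ncard h1 (Set.toFinite _)
        _ ≤ (Set.univ \ {q} : Set X).ncard := Set.ncard_image_le (Set.toFinite _)
        _ < (Set.univ : Set X).ncard := by
            apply Set.ncard_lt_ncard _ (Set.toFinite _)
            refine (Set.ssubset_iff_of_subset Set.sdiff_subset).2 ⟨q, trivial, fun h => h.2 rfl⟩
        _ = (Set.range v).ncard := by
            rw [Set.ncard_univ]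
            rfl
  refine HARD_ok B ι ar 𝔸 E h.symm h.irrefl hE1 hE2 J hJ (ar l) (𝔸 l)
    (PP.rel (𝔸 := 𝔸) l (fun j => j)) X c ⟨y0, hy0⟩ ⟨y1, hy1⟩ ⟨y2, hy2⟩
    (fun h => h01 (congrArg Subtype.val h)) (fun h => h12 (congrArg Subtype.val h))
    (fun h => h02 (congrArg Subtype.val h)) ?_ ?_ ?_
  · intro e he hmem
    obtain ⟨g, hg, h1⟩ := h.homX (fun x : X => (x : B)) e hX he
    apply hvl
    have h2 : Same G v (e ∘ c) := ⟨g, hg, fun i => h1 (c i)⟩
    exact h2.symm.mem (h𝔸 l) hmem
  · intro e he hE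
    exact hmerge _ _ ⟨y2, hy2⟩ (fun h => h01 (congrArg Subtype.val h))
      (fun h => h02 (congrArg Subtype.val h).symm) (fun h => h12 (congrArg Subtype.val h).symm) e he hE
  · intro e he hE
    exact hmerge _ _ ⟨y0, hy0⟩ (fun h => h12 (congrArg Subtype.val h))
      (fun h => h01 (congrArg Subtype.val h)) (fun h => h02 (congrArg Subtype.val h)) e he hE

theorem clique_easy {B : Type} {G : Subgroup (Equiv.Perm B)} {E : B → B → Prop}
    (h : CliqueType G E) {ι : Type} {ar : ι → ℕ} (𝔸 : Str ι ar B) (h𝔸 : ∀ l, Invar G (𝔸 l))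
    (hall : ∀ l (v : Fin (ar l) → B), NC v → Clique E v → v ∈ 𝔸 l) : Tractable 𝔸 := by
  obtain ⟨J, hJ⟩ := h.inf
  have hinj : Function.Injective J := by
    intro i j hij
    by_contra h2
    have h1 := hJ i j h2
    rw [hij] at h1
    exact h.irrefl _ h1
  refine tractable_of_free (I := Set.range J) ⟨?_, ?_⟩
  · intro l v hv hvI
    refine hall l v hv fun i j hij => ?_
    obtain ⟨a, ha⟩ := hvI i
    obtain ⟨b, hb⟩ := hvI j
    rw [← ha, ← hb] at hij ⊢
    exact hJ _ _ fun h => hij (congrArg J h)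
  · intro b
    refine (Set.infinite_range_of_injective hinj).mono ?_
    rintro a ha
    refine ⟨ha, ?_⟩
    intro i hi
    obtain ⟨g, hg, h1⟩ := h.hom 1 (fun _ => b) (fun _ => a)
      (fun i j hij => absurd (Subsingleton.elim i j) hij)
      (fun i j hij => absurd (Subsingleton.elim i j) hij)
    have h2 : g b = a := h1 0
    have := h𝔸 i g hg _ hi
    simp only [h2] at this
    exact this

open Pool.Agent.U540.PU in
theorem chain_hard {B : Type} {G : Subgroup (Equiv.Perm B)} {E : B → B → Prop}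
    (h : ChainType G E) {k : ℕ} (R : Set (Fin k → B)) (hR : Invar G R)
    (htwo : ∀ v : Fin k → B, Chain E v → (Set.range v).ncard = 2 → v ∈ R)
    (v0 : Fin k → B) (hnc0 : NC v0) (hv0 : Chain E v0) (hv0l : v0 ∉ R) :
    PPConstructsK3 (otmpl E R) := by
  classical
  obtain ⟨J, hJ⟩ := h.inf
  have hex : ∃ m : ℕ, ∃ v : Fin k → B, NC v ∧ Chain E v ∧ v ∉ R ∧ (Set.range v).ncard = m :=
    ⟨_, v0, hnc0, hv0, hv0l, rfl⟩
  obtain ⟨v, hnc, hv, hvl, hm⟩ := Nat.find_spec hex
  have hmin : ∀ w : Fin k → B, NC w → Chain E w → (Set.range w).ncard < (Set.range v).ncard →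
      w ∈ R := by
    intro w hw1 hw2 hw3
    by_contra hw4
    rw [hm] at hw3
    exact Nat.find_min hex hw3 ⟨w, hw1, hw2, hw4, rfl⟩
  have hv' : ∀ i j, v i = v j ∨ E (v i) (v j) ∨ E (v j) (v i) := by
    intro i j
    by_cases hij : v i = v j
    · exact Or.inl hij
    · exact Or.inr (hv i j hij)
  obtain ⟨m, c, hc, hr⟩ := RANK_ok k (patV h v hv')
  have hr' : ∀ i j, c i ≤ c j ↔ v i = v j ∨ E (v i) (v j) := fun i j => (hr i j).symm
  have hceq : ∀ i j, c i = c j ↔ v i = v j := by
    intro i j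
    constructor
    · intro h1
      rcases (hr' i j).1 h1.le with h2 | h2
      · exact h2
      · rcases (hr' j i).1 h1.ge with h3 | h3
        · exact h3.symm
        · exact (h.asymm h2 h3).elim
    · intro h1
      exact le_antisymm ((hr' i j).2 (Or.inl h1)) ((hr' j i).2 (Or.inl h1.symm))
  let e0 : Fin m → B := fun x => v (Function.surjInv hc x)
  have he0 : ∀ i, e0 (c i) = v i := fun i => (hceq _ _).1 (Function.surjInv_eq hc (c i))
  have he0c : ∀ x y, x < y → E (e0 x) (e0 y) := by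
    intro x y hxy
    have h1 := Function.surjInv_eq hc x
    have h2 := Function.surjInv_eq hc y
    have h3 : c (Function.surjInv hc x) ≤ c (Function.surjInv hc y) := by
      rw [h1, h2]
      exact hxy.le
    rcases (hr' _ _).1 h3 with h4 | h4
    · exfalso
      have h5 := (hceq _ _).2 h4
      rw [h1, h2] at h5
      exact absurd h5 hxy.ne
    · exact h4
  have he0i : Function.Injective e0 := by
    intro x y hxy
    have h1 := (hceq _ _).2 hxy
    rwa [Function.surjInv_eq hc x, Function.surjInv_eq hc y] at h1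
  have hcard : (Set.range v).ncard = m := by
    have h1 : Set.range v = Set.range e0 := by
      ext x
      constructor
      · rintro ⟨i, rfl⟩
        exact ⟨c i, he0 i⟩
      · rintro ⟨y, rfl⟩
        exact ⟨_, rfl⟩
    rw [h1, ← Set.image_univ, Set.ncard_image_of_injective _ he0i, Set.ncard_univ, Nat.card_eq_fintype_card,
      Fintype.card_fin]
  have h3 : 3 ≤ m := by
    obtain ⟨i, j, hij⟩ := hnc
    have h1 : 1 < (Set.range v).ncard :=
      (Set.one_lt_ncard (Set.finite_range v)).2 ⟨v i, ⟨i, rfl⟩, v j, ⟨j, rfl⟩, hij⟩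
    have h2 : (Set.range v).ncard ≠ 2 := fun h2 => hvl (htwo v hv h2)
    omega
  have hRP : PP (otmpl E R) R :=
    PP.rel (𝔸 := otmpl E R) (Sum.inr 0) (fun j : Fin k => j)
  have hE1 : PP (otmpl E R) {v : Fin 2 → B | E (v 0) (v 1)} := by
    have h1 := PP.rel (𝔸 := otmpl E R) (V := Fin 2) (Sum.inl 0) (fun j : Fin 2 => j)
    have h2 : {v : Fin 2 → B | v ∘ (fun j : Fin 2 => j) ∈ otmpl E R (Sum.inl 0)} =
        {v : Fin 2 → B | E (v 0) (v 1)} := by
      ext v
      show v ∈ ordBase E 0 ↔ _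
      simp [ordBase]
    rw [← h2]
    exact h1
  have hE2 : PP (otmpl E R) {v : Fin 2 → B | v 0 = v 1 ∨ E (v 0) (v 1)} := by
    have h1 := PP.rel (𝔸 := otmpl E R) (V := Fin 2) (Sum.inl 1) (fun j : Fin 2 => j)
    have h2 : {v : Fin 2 → B | v ∘ (fun j : Fin 2 => j) ∈ otmpl E R (Sum.inl 1)} =
        {v : Fin 2 → B | v 0 = v 1 ∨ E (v 0) (v 1)} := by
      ext v
      show v ∈ ordBase E 1 ↔ _
      simp [ordBase]
    rw [← h2]
    exact h1
  have hmerge : ∀ (p q r : Fin m), p < q → r ≠ p → r ≠ q → ∀ e : Fin m → B, e p = e q →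
      (∀ i j, i < j → ¬ (i = p ∧ j = q) → E (e i) (e j)) → e ∘ c ∈ R := by
    intro p q r hpq hrp hrq e he hE
    have hE' : ∀ x y : Fin m, e x ≠ e y → E (e x) (e y) ∨ E (e y) (e x) := by
      intro x y hxy
      rcases lt_trichotomy x y with h1 | h1 | h1
      · left
        apply hE _ _ h1
        rintro ⟨rfl, rfl⟩
        exact hxy he
      · exact absurd (congrArg e h1) hxy
      · right
        apply hE _ _ h1
        rintro ⟨rfl, rfl⟩
        exact hxy he.symm
    apply hmin
    · obtain ⟨i, hi⟩ := hc p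
      obtain ⟨j, hj⟩ := hc r
      refine ⟨i, j, ?_⟩
      show e (c i) ≠ e (c j)
      rw [hi, hj]
      intro heq
      rcases lt_trichotomy p r with h1 | h1 | h1
      · have h2 := hE p r h1 (fun h => hrq h.2)
        rw [heq] at h2
        exact h.irrefl _ h2
      · exact hrp h1.symm
      · have h2 := hE r p h1 (fun h => hrp h.1)
        rw [heq] at h2
        exact h.irrefl _ h2
    · intro i j hij
      exact hE' _ _ hij
    · have h1 : Set.range (e ∘ c) ⊆ e '' (Set.univ \ {q}) := by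
        rintro _ ⟨i, rfl⟩
        by_cases hi : c i = q
        · exact ⟨p, ⟨trivial, hpq.ne⟩, by rw [he, ← hi]; rfl⟩
        · exact ⟨c i, ⟨trivial, hi⟩, rfl⟩
      calc (Set.range (e ∘ c)).ncard ≤ (e '' (Set.univ \ {q})).ncard :=
            Set.ncard_le_ncard h1 (Set.toFinite _)
        _ ≤ (Set.univ \ {q} : Set (Fin m)).ncard := Set.ncard_image_le (Set.toFinite _)
        _ < (Set.univ : Set (Fin m)).ncard := by
            apply Set.ncard_lt_ncard _ (Set.toFinite _)
            refine (Set.ssubset_iff_of_subset Set.sdiff_subset).2 ⟨q, trivial, fun h => h.2 rfl⟩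
        _ = (Set.range v).ncard := by
            rw [Set.ncard_univ, hcard, Nat.card_eq_fintype_card, Fintype.card_fin]
  refine OSD_ok OGAD_ok B _ _ (otmpl E R) E h.irrefl h.trans hE1 hE2 J hJ k R hRP m c
    ⟨0, by omega⟩ ⟨1, by omega⟩ ⟨2, by omega⟩ rfl rfl ?_ ?_ ?_
  · intro e he hmem
    obtain ⟨g, hg, h1⟩ := h.hom m e0 e he0c he
    apply hvl
    have h2 : Same G v (e ∘ c) := ⟨g, hg, fun i => by
      rw [← he0 i]
      exact h1 (c i)⟩
    exact h2.symm.mem hR hmem
  · intro e he hE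
    exact hmerge _ _ ⟨2, by omega⟩ (by
      show (0 : ℕ) < 1
      omega) (fun h => by
      have := congrArg Fin.val h
      simp at this) (fun h => by
      have := congrArg Fin.val h
      simp at this) e he hE
  · intro e he hE
    exact hmerge _ _ ⟨0, by omega⟩ (by
      show (1 : ℕ) < 2
      omega) (fun h => by
      have := congrArg Fin.val h
      simp at this) (fun h => by
      have := congrArg Fin.val h
      simp at this) e he hE

open Pool.Agent.U540.PU in
theorem chain_easy {B : Type} {G : Subgroup (Equiv.Perm B)} {E : B → B → Prop}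
    (h : ChainType G E) {k : ℕ} (R : Set (Fin k → B)) (hR : Invar G R)
    (hall : ∀ v : Fin k → B, NC v → Chain E v → v ∈ R) : TractableOrd E R := by
  have hF : FullOrd E R := by
    refine ⟨h.irrefl, h.trans, h.inf, ?_, ?_⟩
    · intro v hnc hv
      refine hall v hnc fun i j hij => ?_
      rcases hv i j with h1 | h1
      · exact absurd h1 hij
      · exact h1
    · intro a b hab
      obtain ⟨g, hg, h1⟩ := h.hom 1 (fun _ => a) (fun _ => b)
        (fun i j hij => absurd (Subsingleton.elim i j) hij.ne)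
        (fun i j hij => absurd (Subsingleton.elim i j) hij.ne)
      have h2 : g a = b := h1 0
      have := hR g hg _ hab
      simp only [h2] at this
      exact this
  exact ⟨OKB_ok OKA_ok B G E k R hF hR h.inv h.hom, fun X _ 𝕏 => OCSP_ok B E k R hF X 𝕏⟩

end Pool.Agent.U540.PV
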